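import Pool.Agent.H29.LG.Targets
import Pool.Agent.H71.SX.REL

/-!
# Linear relations over the cyclotomic level field (row RELK of lgx_modules, MP_c65535_nt)
-/

set_option autoImplicit false

namespace Pool.Agent.H40.LG

open NumberField Height Finset Polynomial Pool.Agent.H24.RD Pool.Agent.H23.RDD Pool.Agent.H29.RQ
  Pool.Agent.H29.SX Pool.Agent.H29.LG

lemma closure_monomial {Ω : Type} [Field Ω] {r : ℕ} (T : Fin r → Ω) (m : Ω)
    (hm : m ∈ Submonoid.closure (Set.range T)) : ∃ e : Fin r → ℕ, m = ∏ i, T i ^ e i := by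
  classical
  induction hm using Submonoid.closure_induction with
  | mem x hx =>
    obtain ⟨i, rfl⟩ := hx
    refine ⟨fun j => if j = i then 1 else 0, ?_⟩
    rw [Finset.prod_eq_single i]
    · simp
    · intro j _ hj
      simp [hj]
    · intro hi
      exact absurd (Finset.mem_univ i) hi
  | one => exact ⟨fun _ => 0, by simp⟩
  | mul x y _ _ hx hy =>
    obtain ⟨e, rfl⟩ := hx
    obtain ⟨e', rfl⟩ := hy
    refine ⟨fun i => e i + e' i, ?_⟩
    rw [← Finset.prod_mul_distrib]
    exact Finset.prod_congr rfl fun i _ => (pow_add _ _ _).symm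

/-- the level field is spanned by the monomials over the cyclotomic level field -/
lemma level_span (F Ω : Type) [Field F] [NumberField F] [Field Ω] [CharZero Ω] [Algebra F Ω]
    [IsAlgClosed Ω] [Algebra.IsAlgebraic F Ω] (r : ℕ) (γ : Fin r → F) (hγ : ∀ i, γ i ≠ 0)
    (N K : ℕ) (hK : 0 < K) (hKN : K ∣ N) (T : Fin r → Ω)
    (hT : ∀ i, T i ^ K = algebraMap F Ω (γ i)) (x : Ω) (hx : x ∈ Lv F Ω γ N K) :
    x ∈ Submodule.span (Lv F Ω γ N 1) (Set.range fun e : Fin r → Fin K =>
      ∏ i, T i ^ (e i : ℕ)) := by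
  classical
  have hT0 : ∀ i, T i ≠ 0 := by
    intro i h0
    have h1 := hT i
    rw [h0, zero_pow hK.ne'] at h1
    exact hγ i ((map_eq_zero (algebraMap F Ω)).1 h1.symm)
  have h1 : x ∈ Algebra.adjoin (Lv F Ω γ N 1) (Set.range T) := by
    have h2 : x ∈ (IntermediateField.adjoin F {z : Ω | z ^ N = 1 ∨
        ∃ i, z ^ K = algebraMap F Ω (γ i)}).toSubalgebra := hx
    rw [IntermediateField.adjoin_toSubalgebra] at h2
    clear hx
    induction h2 using Algebra.adjoin_induction with
    | mem z hz =>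
      rcases hz with hz | ⟨i, hz⟩
      · have hm : z ∈ Lv F Ω γ N 1 := IntermediateField.subset_adjoin F _ (Or.inl hz)
        exact Subalgebra.algebraMap_mem (Algebra.adjoin (Lv F Ω γ N 1) (Set.range T))
          (⟨z, hm⟩ : Lv F Ω γ N 1)
      · have h3 : (z / T i) ^ N = 1 := by
          obtain ⟨c, rfl⟩ := hKN
          rw [pow_mul, div_pow, hz, hT i, div_self, one_pow]
          exact fun h0 => hγ i ((map_eq_zero (algebraMap F Ω)).1 h0)
        have hm : z / T i ∈ Lv F Ω γ N 1 := IntermediateField.subset_adjoin F _ (Or.inl h3)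
        have h4 : z = algebraMap (Lv F Ω γ N 1) Ω ⟨z / T i, hm⟩ * T i := by
          change z = z / T i * T i
          rw [div_mul_cancel₀ _ (hT0 i)]
        rw [h4]
        exact mul_mem (Subalgebra.algebraMap_mem _ _) (Algebra.subset_adjoin ⟨i, rfl⟩)
    | algebraMap c =>
      exact Subalgebra.algebraMap_mem (Algebra.adjoin (Lv F Ω γ N 1) (Set.range T))
        (algebraMap F (Lv F Ω γ N 1) c)
    | add a b _ _ ha hb => exact add_mem ha hb
    | mul a b _ _ ha hb => exact mul_mem ha hb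
  have h5 : x ∈ Submodule.span (Lv F Ω γ N 1)
      (Submonoid.closure (Set.range T) : Set Ω) := by
    rw [← Algebra.adjoin_eq_span]
    exact h1
  refine (Submodule.span_le.2 ?_) h5
  intro m hm
  obtain ⟨e, rfl⟩ := closure_monomial T m hm
  have h6 : ∏ i, T i ^ e i = (algebraMap F (Lv F Ω γ N 1) (∏ i, γ i ^ (e i / K))) •
      ∏ i, T i ^ (e i % K) := by
    rw [Algebra.smul_def, ← IsScalarTower.algebraMap_apply F (Lv F Ω γ N 1) Ω, map_prod,
      ← Finset.prod_mul_distrib]
    refine Finset.prod_congr rfl fun i _ => ?_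
    rw [map_pow, ← hT i, ← pow_mul, ← pow_add, Nat.div_add_mod]
  change ∏ i, T i ^ e i ∈ Submodule.span (Lv F Ω γ N 1) _
  rw [h6]
  refine Submodule.smul_mem _ _ (Submodule.subset_span ?_)
  exact ⟨fun i => ⟨e i % K, Nat.mod_lt _ hK⟩, rfl⟩

theorem pf_RELK (h : T_LVB) : T_RELK := by
  intro F Ω _ _ _ _ _ _ _ r γ hγ N K d hN hKN T hT β hC S hS
  classical
  obtain ⟨hfd, hfr⟩ := Pool.Agent.H71.SX.finrank_le_of_Cj F Ω (Lv F Ω γ N K) d β hC
  have hK : 0 < K := Nat.pos_of_dvd_of_pos hKN hN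
  have hTE : ∀ i, T i ∈ Lv F Ω γ N K := fun i =>
    IntermediateField.subset_adjoin F _ (Or.inr ⟨i, hT i⟩)
  set n := Module.finrank (Lv F Ω γ N K) (IntermediateField.adjoin (Lv F Ω γ N K) {β}) with hn
  let b := Module.finBasis (Lv F Ω γ N K) (IntermediateField.adjoin (Lv F Ω γ N K) {β})
  let g : ((Fin r → Fin K) × Fin n) → Ω := fun x => (∏ i, T i ^ (x.1 i : ℕ)) * (b x.2 : Ω)
  set W : Submodule (Lv F Ω γ N 1) Ω := Submodule.span (Lv F Ω γ N 1) (Set.range g) with hW
  have hWfd : FiniteDimensional (Lv F Ω γ N 1) W :=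
    FiniteDimensional.span_of_finite _ (Set.finite_range g)
  have hWfr : Module.finrank (Lv F Ω γ N 1) W ≤ K ^ r * d := by
    have h1 : Module.finrank (Lv F Ω γ N 1) W ≤ Fintype.card ((Fin r → Fin K) × Fin n) :=
      finrank_range_le_card g
    rw [Fintype.card_prod, Fintype.card_fun, Fintype.card_fin, Fintype.card_fin,
      Fintype.card_fin] at h1
    exact h1.trans (Nat.mul_le_mul_left _ hfr)
  have hWmem : ∀ x ∈ IntermediateField.adjoin (Lv F Ω γ N K) {β}, x ∈ W := by
    intro x hx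
    have h1 := b.sum_repr ⟨x, hx⟩
    have h2 := congrArg (fun z : IntermediateField.adjoin (Lv F Ω γ N K) {β} => (z : Ω)) h1
    simp only [AddSubmonoidClass.coe_finsetSum] at h2
    rw [← h2]
    refine Submodule.sum_mem _ fun j _ => ?_
    have h3 : ((b.repr ⟨x, hx⟩ j • b j : IntermediateField.adjoin (Lv F Ω γ N K) {β}) : Ω) =
        ((b.repr ⟨x, hx⟩ j : Lv F Ω γ N K) : Ω) * (b j : Ω) := by
      rw [IntermediateField.coe_smul, Algebra.smul_def]
      rfl
    rw [h3]
    have h4 := level_span F Ω r γ hγ N K hK hKN T hT _ (b.repr ⟨x, hx⟩ j).2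
    generalize ((b.repr ⟨x, hx⟩ j : Lv F Ω γ N K) : Ω) = c at h4
    induction h4 using Submodule.span_induction with
    | mem y hy =>
      obtain ⟨e, rfl⟩ := hy
      exact Submodule.subset_span ⟨(e, j), rfl⟩
    | zero => rw [zero_mul]; exact Submodule.zero_mem _
    | add y z _ _ hy hz => rw [add_mul]; exact Submodule.add_mem _ hy hz
    | smul a y _ hy =>
      rw [smul_mul_assoc]
      exact Submodule.smul_mem _ _ hy
  set y : (Fin (r + 1) → ℤ) → Ω := fun a => pt T β a with hy
  have hmem : ∀ a, y a ∈ W := by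
    intro a
    apply hWmem
    show pt T β a ∈ IntermediateField.adjoin (Lv F Ω γ N K) {β}
    unfold pt
    apply mul_mem
    · exact zpow_mem (IntermediateField.mem_adjoin_simple_self _ β) _
    · apply prod_mem
      intro i _
      apply zpow_mem
      exact IntermediateField.algebraMap_mem (IntermediateField.adjoin (Lv F Ω γ N K) {β})
        (⟨T i, hTE i⟩ : Lv F Ω γ N K)
  have hnl : ¬ LinearIndependent (Lv F Ω γ N 1) (fun a : S => (⟨y a.1, hmem a.1⟩ : W)) := by
    intro hli
    have h1 := hli.fintype_card_le_finrank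
    rw [Fintype.card_coe] at h1
    omega
  rw [Fintype.not_linearIndependent_iff] at hnl
  obtain ⟨c, hc, i0, hi0⟩ := hnl
  let φ : (Fin (r + 1) → ℤ) → Lv F Ω γ N 1 := fun a => if h : a ∈ S then c ⟨a, h⟩ else 0
  let f : (Fin (r + 1) → ℤ) →₀ Lv F Ω γ N 1 := Finsupp.onFinset S φ (by
    intro a ha
    by_contra hn
    exact ha (dif_neg hn))
  have hfs : f.support ⊆ S := Finsupp.support_onFinset_subset
  have hfa : ∀ a : S, f a.1 = c a := by
    intro a
    show φ a.1 = c a
    exact dif_pos a.2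
  refine ⟨f, ?_, fun a ha => hfs ha, ?_⟩
  · intro h0
    apply hi0
    rw [← hfa i0, h0]
    rfl
  · unfold ev
    rw [Finsupp.sum_of_support_subset f hfs _ (fun a _ => by rw [map_zero, zero_mul]),
      ← Finset.sum_coe_sort S]
    have h2 := congrArg (fun z : W => (z : Ω)) hc
    simp only [AddSubmonoidClass.coe_finsetSum, ZeroMemClass.coe_zero] at h2
    rw [← h2]
    apply sum_congr rfl
    intro a _
    rw [hfa a]
    show algebraMap (Lv F Ω γ N 1) Ω (c a) * y a.1 = ((c a • (⟨y a.1, hmem a.1⟩ : W) : W) : Ω)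
    rw [Submodule.coe_smul, Algebra.smul_def]

end Pool.Agent.H40.LG
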